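import Pool.Agent.Helper246.TDM.Core

set_option autoImplicit false

/-!
Turing determinacy and monochromatic copies of the infinite sets.
-/

namespace Pool.Agent.Helper246.TDR

open Pool.Agent.Helper227 Pool.Agent.H685R3 Pool.Agent.TH774.TD Pool.Agent.Helper246.TDM
open Filter Topology

open Classical in
/-- The path that runs on the windows in `A` and pauses on the others. -/
noncomputable def th (A : Set ℕ) (x : ℝ) : ℝ :=
  (((Finset.range ⌊x⌋₊).filter (· ∈ A)).card : ℝ) + if ⌊x⌋₊ ∈ A then x - ⌊x⌋₊ else 0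

theorem th_int_le (A : Set ℕ) {x y : ℝ} (hx : 0 ≤ x) (h : x ≤ y) :
    0 ≤ th A y - th A x ∧ th A y - th A x ≤ y - x := by
  classical
  have hy : 0 ≤ y := hx.trans h
  have fx := Nat.floor_le hx
  have fy := Nat.floor_le hy
  have gx := Nat.lt_floor_add_one x
  have gy := Nat.lt_floor_add_one y
  have hm : ⌊x⌋₊ ≤ ⌊y⌋₊ := Nat.floor_le_floor h
  rcases hm.eq_or_lt with he | hlt
  · unfold th
    rw [← he] at fy ⊢
    split_ifs <;> constructor <;> linarith
  · have e1 : (((Finset.range ⌊y⌋₊).filter (· ∈ A)).card : ℝ) =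
        (((Finset.range ⌊x⌋₊).filter (· ∈ A)).card : ℝ) + (if ⌊x⌋₊ ∈ A then 1 else 0) +
        (((Finset.Ico (⌊x⌋₊ + 1) ⌊y⌋₊).filter (· ∈ A)).card : ℝ) := by
      have e2 : (Finset.range ⌊y⌋₊).filter (· ∈ A) =
          ((Finset.range (⌊x⌋₊ + 1)).filter (· ∈ A)) ∪
          ((Finset.Ico (⌊x⌋₊ + 1) ⌊y⌋₊).filter (· ∈ A)) := by
        rw [← Finset.filter_union]
        congr 1
        ext k
        simp only [Finset.mem_range, Finset.mem_union, Finset.mem_Ico]
        omega
      have e3 : Disjoint ((Finset.range (⌊x⌋₊ + 1)).filter (· ∈ A))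
          ((Finset.Ico (⌊x⌋₊ + 1) ⌊y⌋₊).filter (· ∈ A)) := by
        rw [Finset.disjoint_left]
        intro k h1 h2
        have h3 := Finset.mem_range.1 (Finset.mem_filter.1 h1).1
        have h4 := (Finset.mem_Ico.1 (Finset.mem_filter.1 h2).1).1
        omega
      rw [e2, Finset.card_union_of_disjoint e3, Finset.range_add_one, Finset.filter_insert]
      split_ifs with hA
      · rw [Finset.card_insert_of_notMem (by simp)]
        push_cast
        ring
      · push_cast
        ring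
    have e4 : (((Finset.Ico (⌊x⌋₊ + 1) ⌊y⌋₊).filter (· ∈ A)).card : ℝ) ≤ (⌊y⌋₊ : ℝ) - (⌊x⌋₊ + 1) := by
      have h1 := Finset.card_filter_le (Finset.Ico (⌊x⌋₊ + 1) ⌊y⌋₊) (· ∈ A)
      rw [Nat.card_Ico] at h1
      have h2 : (((Finset.Ico (⌊x⌋₊ + 1) ⌊y⌋₊).filter (· ∈ A)).card : ℝ) ≤
          ((⌊y⌋₊ - (⌊x⌋₊ + 1) : ℕ) : ℝ) := Nat.cast_le.2 h1
      rw [Nat.cast_sub (by omega)] at h2
      push_cast at h2
      exact h2
    have e5 : (0 : ℝ) ≤ (((Finset.Ico (⌊x⌋₊ + 1) ⌊y⌋₊).filter (· ∈ A)).card : ℝ) := Nat.cast_nonneg _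
    unfold th
    rw [e1]
    split_ifs <;> constructor <;> linarith

theorem th_zero (A : Set ℕ) : th A 0 = 0 := by
  classical
  unfold th
  simp

theorem nice_th {A : Set ℕ} (hA : A.Infinite) : Nice (th A) where
  nonneg := fun x hx => by
    have := (th_int_le A le_rfl hx).1
    rw [th_zero] at this
    linarith
  le := fun x hx => by
    have := (th_int_le A le_rfl hx).2
    rw [th_zero] at this
    linarith
  mono := fun x y hx h => by have := (th_int_le A hx h).1; linarith
  lip := fun x y hx h => (th_int_le A hx h).2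
  top := by
    classical
    rw [tendsto_atTop]
    intro b
    obtain ⟨k, hk⟩ := exists_nat_gt b
    obtain ⟨t, ht1, ht2⟩ := hA.exists_subset_card_eq k
    obtain ⟨M, hM⟩ := t.exists_nat_subset_range
    filter_upwards [eventually_ge_atTop (M : ℝ)] with x hx
    have h0 : (0 : ℝ) ≤ x := (Nat.cast_nonneg M).trans hx
    have h1 : M ≤ ⌊x⌋₊ := Nat.le_floor hx
    have h2 : t ⊆ (Finset.range ⌊x⌋₊).filter (· ∈ A) := by
      intro j hj
      refine Finset.mem_filter.2 ⟨Finset.mem_range.2 ?_, ht1 hj⟩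
      have := Finset.mem_range.1 (hM hj)
      omega
    have h3 : (k : ℝ) ≤ (((Finset.range ⌊x⌋₊).filter (· ∈ A)).card : ℝ) := by
      rw [← ht2]
      exact Nat.cast_le.2 (Finset.card_le_card h2)
    have h4 : (0 : ℝ) ≤ if ⌊x⌋₊ ∈ A then x - ⌊x⌋₊ else 0 := by
      split_ifs
      · have := Nat.floor_le h0
        linarith
      · exact le_rfl
    unfold th
    have h5 : b ≤ (((Finset.range ⌊x⌋₊).filter (· ∈ A)).card : ℝ) := hk.le.trans h3
    convert add_le_add h5 h4 using 1
    ring

theorem wv_add_nat (x : ℝ) (k : ℕ) : wv (k + x) = wv x := by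
  induction k with
  | zero => simp
  | succ k ih =>
    rw [← ih, wv, wv]
    have : Real.pi * ((k + 1 : ℕ) + x) = Real.pi * (k + x) + Real.pi := by
      push_cast
      ring
    rw [this, Real.sin_add_pi, neg_sq]

open Classical in
theorem wv_th (A : Set ℕ) (x : ℝ) : wv (th A x) = if ⌊x⌋₊ ∈ A then wv x else 0 := by
  unfold th
  rw [wv_add_nat]
  split_ifs
  · rw [← wv_add_nat (x - ⌊x⌋₊) ⌊x⌋₊]
    congr 1
    ring
  · have := wv_int 0
    simpa using this

/-- The slow functions grow by at most one at every step. -/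
theorem al_succ (x : ℕ → Bool) (m : ℕ) : al x m ≤ al x (m + 1) ∧ al x (m + 1) ≤ al x m + 1 := by
  constructor
  · by_contra h
    push Not at h
    have h1 := (lt_lc (strictMono_g x)).1 h
    have h2 : ¬ al x (m + 1) < al x (m + 1) := lt_irrefl _
    exact h2 ((lt_lc (strictMono_g x)).2 (by omega))
  · by_contra h
    push Not at h
    have h1 : al x m + 1 < lc (g x) (m + 1) := h
    have h2 := (lt_lc (strictMono_g x)).1 h1
    have h3 : ¬ al x m < lc (g x) m := lt_irrefl _
    have h4 : ¬ g x (al x m) < m := fun h => h3 ((lt_lc (strictMono_g x)).2 h)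
    have h5 := strictMono_g x (Nat.lt_succ_self (al x m))
    change g x (al x m) < g x (al x m + 1) at h5
    omega

theorem sq_slow (x : ℕ → Bool) : Tendsto (fun m => sq x (m + 1) - sq x m) atTop (𝓝 0) :=
  sqrt_close ((tendsto_add_atTop_iff_nat 1).2 (tendsto_al x))
    (Eventually.of_forall fun m => ⟨(al_succ x m).2, by have := (al_succ x m).1; omega⟩)

end Pool.Agent.Helper246.TDR
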